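import Pool.Agent.W186.AI.Spec
import Pool.Agent.H24R2.JP.B1
import Pool.Agent.H24R2.JP.Had
import Pool.Agent.H24R2.JP.Der
import Pool.Agent.H24R2.JP.Grow
import Pool.Agent.H24R2.JP.Zeros
import Pool.Agent.H24R2.JP.Mom
import Pool.Agent.H24R2.JP.Gam

set_option autoImplicit false

/-!
# MON: the logarithmic derivative of the xi function has positive real part on `Re s > 1`
-/

namespace Pool.Agent.W760.AI.MON

open Complex Filter Topology Polynomial Set
open Pool.Agent.H24R2.JP (XX FF Par App SHad SB1 SGrow SZeros)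

lemma re_inv_pos {u : ℂ} (h : 0 < u.re) : 0 < (1 / u).re := by
  rw [one_div, Complex.inv_re]
  exact div_pos h (Complex.normSq_pos.2 (by rintro rfl; simp at h))

lemma par_root {x : ℂ} (hx : x ∈ Par) : ∃ r : ℂ, r ^ 2 = x ∧ |r.re| ≤ 1 / 2 := by
  obtain ⟨r, rfl⟩ := IsAlgClosed.exists_pow_nat_eq x (n := 2) (by norm_num)
  refine ⟨r, rfl, ?_⟩
  have h1 : (r ^ 2).re + (r ^ 2).im ^ 2 ≤ 1 / 4 := hx
  have hre : (r ^ 2).re = r.re ^ 2 - r.im ^ 2 := by
    rw [pow_two, Complex.mul_re]; ring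
  have him : (r ^ 2).im = 2 * r.re * r.im := by
    rw [pow_two, Complex.mul_im]; ring
  rw [hre, him] at h1
  have h2 : r.re ^ 2 ≤ (1 / 2) ^ 2 := by
    by_contra hc
    push Not at hc
    have h3 : 0 < (r.re ^ 2 - 1 / 4) * (1 + 4 * r.im ^ 2) := by
      apply mul_pos
      · linarith
      · nlinarith [sq_nonneg r.im]
    nlinarith
  exact abs_le_of_sq_le_sq h2 (by norm_num)

lemma not_par {w : ℂ} (hw : 1 / 2 < w.re) : w ^ 2 ∉ Par := by
  intro h
  obtain ⟨r, hr, hr2⟩ := par_root h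
  have h3 : r = w ∨ r = -w := sq_eq_sq_iff_eq_or_eq_neg.1 hr
  have h4 := abs_le.1 hr2
  rcases h3 with rfl | rfl
  · linarith [h4.2]
  · simp only [Complex.neg_re] at h4
    linarith [h4.1]

lemma term_re {w x : ℂ} (hw : 1 / 2 < w.re) (hx : x ∈ Par) : 0 ≤ (2 * w * (1 / (w ^ 2 - x))).re := by
  obtain ⟨r, rfl, hr⟩ := par_root hx
  have h := abs_le.1 hr
  have h1 : 0 < (w - r).re := by simp only [Complex.sub_re]; linarith [h.2]
  have h2 : 0 < (w + r).re := by simp only [Complex.add_re]; linarith [h.1]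
  have e1 : w - r ≠ 0 := by intro h0; rw [h0] at h1; simp at h1
  have e2 : w + r ≠ 0 := by intro h0; rw [h0] at h2; simp at h2
  have e : 2 * w * (1 / (w ^ 2 - r ^ 2)) = 1 / (w - r) + 1 / (w + r) := by
    have : w ^ 2 - r ^ 2 = (w - r) * (w + r) := by ring
    rw [this]
    field_simp
    ring
  rw [e, Complex.add_re]
  exact (add_pos (re_inv_pos h1) (re_inv_pos h2)).le

lemma multiset_re (s : Multiset ℂ) (h : ∀ x ∈ s, 0 ≤ x.re) : 0 ≤ s.sum.re := by
  induction s using Multiset.induction_on with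
  | empty => simp
  | cons a s ih =>
    rw [Multiset.sum_cons, Complex.add_re]
    exact add_nonneg (h a (Multiset.mem_cons_self a s))
      (ih fun x hx => h x (Multiset.mem_cons_of_mem hx))

lemma poly_re {P : ℝ[X]} (hP : ∀ x : ℂ, aeval x P = 0 → x ∈ Par) {w : ℂ} (hw : 1 / 2 < w.re) :
    0 ≤ (2 * w * (aeval (w ^ 2) (derivative P) / aeval (w ^ 2) P)).re := by
  have e : ∀ (Q : ℝ[X]) (x : ℂ), aeval x Q = (Q.map (algebraMap ℝ ℂ)).eval x := fun Q x => by
    rw [Polynomial.eval_map_algebraMap]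
  set p : ℂ[X] := P.map (algebraMap ℝ ℂ) with hp
  have hne : p.eval (w ^ 2) ≠ 0 := by
    intro h
    rw [hp, ← e] at h
    exact not_par hw (hP _ h)
  rw [e, e, ← Polynomial.derivative_map, ← hp,
    (IsAlgClosed.splits p).eval_derivative_div_eval_of_ne_zero hne, ← Multiset.sum_map_mul_left]
  apply multiset_re
  intro x hx
  rw [Multiset.mem_map] at hx
  obtain ⟨z, hz, rfl⟩ := hx
  have hz2 : p.eval z = 0 := (Polynomial.mem_roots'.1 hz).2
  rw [hp, ← e] at hz2
  exact term_re hw (hP z hz2)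

lemma app : ∃ P : ℕ → ℝ[X], App FF P := by
  obtain ⟨K, hK⟩ := Pool.Agent.H24R2.JP.grow Pool.Agent.H24R2.JP.b1
  have h5 := Pool.Agent.H24R2.JP.gamS Pool.Agent.H24R2.JP.mom
  have h0 : FF 0 ≠ 0 := by
    have h := Pool.Agent.H24R2.JP.b1.2.2.2 0
    rw [iteratedDeriv_zero] at h
    rw [h]
    exact_mod_cast (h5.1 0).ne'
  obtain ⟨P, h1, h2⟩ := Pool.Agent.H24R2.JP.had FF K Pool.Agent.H24R2.JP.b1.1 h0
    Pool.Agent.H24R2.JP.b1.2.2.1 hK
  exact ⟨P, fun N x hx => Pool.Agent.H24R2.JP.zeros Pool.Agent.H24R2.JP.b1 x (h1 N x hx), h2⟩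

lemma FF_ne {w : ℂ} (hw : 1 / 2 < w.re) : FF (w ^ 2) ≠ 0 := fun h =>
  not_par hw (Pool.Agent.H24R2.JP.zeros Pool.Agent.H24R2.JP.b1 _ h)

lemma lim_re {w : ℂ} (hw : 1 / 2 < w.re) : 0 ≤ (2 * w * (deriv FF (w ^ 2) / FF (w ^ 2))).re := by
  obtain ⟨P, hP⟩ := app
  have hd := (Pool.Agent.H24R2.JP.der FF P hP 1).1
  have h1 : Tendsto (fun N => aeval (w ^ 2) (derivative (P N))) atTop (𝓝 (deriv FF (w ^ 2))) := by
    have := (tendstoLocallyUniformlyOn_univ.2 hd).tendsto_at (Set.mem_univ (w ^ 2))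
    simpa [iteratedDeriv_one] using this
  have h2 : Tendsto (fun N => aeval (w ^ 2) (P N)) atTop (𝓝 (FF (w ^ 2))) :=
    (tendstoLocallyUniformlyOn_univ.2 hP.2).tendsto_at (Set.mem_univ (w ^ 2))
  have h3 : Tendsto (fun N => (2 * w * (aeval (w ^ 2) (derivative (P N)) / aeval (w ^ 2) (P N))).re)
      atTop (𝓝 (2 * w * (deriv FF (w ^ 2) / FF (w ^ 2))).re) :=
    (Complex.continuous_re.tendsto _).comp ((h1.div h2 (FF_ne hw)).const_mul (2 * w))
  exact ge_of_tendsto' h3 fun N => poly_re (hP.1 N) hw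

lemma XX_ne {w : ℂ} (hw : 1 / 2 < w.re) : XX w ≠ 0 := by
  rw [← Pool.Agent.H24R2.JP.b1.2.1 w]
  exact FF_ne hw

lemma XX_deriv (w : ℂ) : HasDerivAt XX (2 * w * deriv FF (w ^ 2)) w := by
  have e : XX = fun z => FF (z ^ 2) := funext fun z => (Pool.Agent.H24R2.JP.b1.2.1 z).symm
  rw [e]
  have h1 : HasDerivAt (fun z : ℂ => z ^ 2) (2 * w) w := by simpa using hasDerivAt_pow 2 w
  have h2 : HasDerivAt FF (deriv FF (w ^ 2)) (w ^ 2) := (Pool.Agent.H24R2.JP.b1.1 _).hasDerivAt
  have h3 := HasDerivAt.comp w h2 h1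
  rw [mul_comm] at h3
  exact h3

lemma XX_diff : Differentiable ℂ XX := fun w => (XX_deriv w).differentiableAt

lemma lam_two : completedRiemannZeta 2 = (Real.pi : ℂ) / 6 := by
  have h1 := riemannZeta_def_of_ne_zero (s := 2) two_ne_zero
  have h2 : Gammaℝ 2 = (Real.pi : ℂ)⁻¹ := by
    rw [Complex.Gammaℝ_def]
    have e1 : (-2 / 2 : ℂ) = -1 := by norm_num
    have e2 : (2 / 2 : ℂ) = 1 := by norm_num
    rw [e1, e2, Complex.Gamma_one, Complex.cpow_neg_one, mul_one]
  have hpi : (Real.pi : ℂ) ≠ 0 := by exact_mod_cast Real.pi_ne_zero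
  rw [riemannZeta_two, h2] at h1
  field_simp at h1
  rw [eq_div_iff (by norm_num)]
  linear_combination -h1

lemma XX_three_half : XX (3 / 2) = 4 * (Real.pi : ℂ) / 3 := by
  rw [Pool.Agent.H24R2.JP.Zer.XX_eq (3 / 2) (by norm_num) (by norm_num)]
  have e : (1 / 2 + 3 / 2 : ℂ) = 2 := by norm_num
  rw [e, lam_two]
  ring

lemma pos {w : ℂ} (hw : 1 / 2 < w.re) : 0 < (deriv XX w / XX w).re := by
  set U : Set ℂ := {w : ℂ | 1 / 2 < w.re} with hU
  have hUo : IsOpen U := isOpen_lt continuous_const Complex.continuous_re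
  have hUc : IsPreconnected U := (convex_halfSpace_re_gt (1 / 2)).isPreconnected
  have hnn : ∀ z ∈ U, 0 ≤ (deriv XX z / XX z).re := by
    intro z hz
    rw [(XX_deriv z).deriv, ← Pool.Agent.H24R2.JP.b1.2.1 z, mul_div_assoc]
    exact lim_re hz
  have han : AnalyticOnNhd ℂ (fun z => deriv XX z / XX z) U := by
    apply DifferentiableOn.analyticOnNhd _ hUo
    refine DifferentiableOn.div ?_ XX_diff.differentiableOn (fun z hz => XX_ne hz)
    exact (XX_diff.contDiff (n := 2)).differentiable_deriv_two.differentiableOn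
  rcases han.is_constant_or_isOpen hUc with ⟨c, hc⟩ | ho
  · have h1U : (1 : ℂ) ∈ U := by rw [hU]; norm_num
    have hc0 : c.re ≠ 0 := by
      intro h0
      have hder : ∀ z ∈ U, HasDerivAt (fun z => XX z * cexp (-c * z)) 0 z := by
        intro z hz
        have a1 := (XX_diff z).hasDerivAt
        have a2 : HasDerivAt (fun z : ℂ => cexp (-c * z)) (cexp (-c * z) * (-c * 1)) z :=
          ((hasDerivAt_id z).const_mul (-c)).cexp
        have a3 := a1.mul a2
        have a4 : deriv XX z = c * XX z := by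
          have := hc z hz
          rwa [div_eq_iff (XX_ne hz)] at this
        have e : deriv XX z * cexp (-c * z) + XX z * (cexp (-c * z) * (-c * 1)) = 0 := by
          rw [a4]; ring
        rw [e] at a3
        exact a3
      have hE : ∀ z ∈ U, XX z * cexp (-c * z) = XX 1 * cexp (-c * 1) := by
        intro z hz
        exact hUo.is_const_of_deriv_eq_zero hUc
          (fun z hz => (hder z hz).differentiableAt.differentiableWithinAt)
          (fun z hz => (hder z hz).deriv) hz h1U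
      have hn : ∀ x : ℝ, 1 / 2 < x → ‖XX x‖ = ‖XX 1‖ := by
        intro x hx
        have h1 := congrArg norm (hE x (by rw [hU]; simpa using hx))
        rw [norm_mul, norm_mul, Complex.norm_exp, Complex.norm_exp] at h1
        have e1 : (-c * (x : ℂ)).re = 0 := by simp [h0]
        have e2 : (-c * 1).re = 0 := by simp [h0]
        rw [e1, e2, Real.exp_zero, mul_one, mul_one] at h1
        exact h1
      have hcont : Continuous fun x : ℝ => ‖XX (x : ℂ)‖ :=
        (XX_diff.continuous.comp Complex.continuous_ofReal).norm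
      have hlim : Tendsto (fun x : ℝ => ‖XX (x : ℂ)‖) (𝓝[>] (1 / 2)) (𝓝 ‖XX ((1 / 2 : ℝ) : ℂ)‖) :=
        (hcont.tendsto _).mono_left nhdsWithin_le_nhds
      have hlim2 : Tendsto (fun x : ℝ => ‖XX (x : ℂ)‖) (𝓝[>] (1 / 2)) (𝓝 ‖XX 1‖) := by
        refine tendsto_const_nhds.congr' ?_
        filter_upwards [self_mem_nhdsWithin] with x hx
        exact (hn x hx).symm
      have h4 := tendsto_nhds_unique hlim hlim2
      have h5 := hn (3 / 2) (by norm_num)
      have e3 : (((3 / 2 : ℝ)) : ℂ) = 3 / 2 := by push_cast; ring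
      have e4 : (((1 / 2 : ℝ)) : ℂ) = 1 / 2 := by push_cast; ring
      rw [e3, XX_three_half] at h5
      rw [e4, Pool.Agent.H24R2.JP.Zer.XX_half] at h4
      rw [← h4] at h5
      have h6 : ‖(4 * (Real.pi : ℂ) / 3)‖ = 4 * Real.pi / 3 := by
        have : (4 * (Real.pi : ℂ) / 3) = ((4 * Real.pi / 3 : ℝ) : ℂ) := by push_cast; ring
        rw [this, Complex.norm_real, Real.norm_of_nonneg (by positivity)]
      have h7 : ‖(4 : ℂ)‖ = 4 := by norm_num
      rw [h6, h7] at h5
      have := Real.pi_gt_three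
      linarith
    have h1 := hc w hw
    have h2 := hnn w hw
    have h1' : deriv XX w / XX w = c := h1
    rw [h1'] at h2 ⊢
    exact lt_of_le_of_ne h2 (Ne.symm hc0)
  · have h1 := ho U subset_rfl hUo
    have h2 : (fun z => deriv XX z / XX z) '' U ⊆ {z : ℂ | 0 ≤ z.re} := by
      rintro _ ⟨z, hz, rfl⟩
      exact hnn z hz
    have h3 := interior_maximal h2 h1
    rw [Complex.interior_setOfPred_le_re] at h3
    exact h3 ⟨w, hw, rfl⟩

open Pool.Agent.W186.AI in
theorem main (hg : S_GAM) (hz : S_ZET) : S_MON := by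
  intro s hs
  have hV : IsOpen {s : ℂ | 1 < s.re} := isOpen_lt continuous_const Complex.continuous_re
  have hd : DifferentiableAt ℂ ell s :=
    (hg.1.add hz.1).differentiableAt (hV.mem_nhds hs)
  have he : ∀ u : ℂ, 1 < u.re → cexp (ell u) = 1 / 4 * XX (u - 1 / 2) := by
    intro u hu
    have hu0 : u ≠ 0 := by rintro rfl; simp at hu; linarith
    have hu1 : (1 - u : ℂ) ≠ 0 := by
      intro h
      have : u = 1 := by linear_combination -h
      rw [this] at hu
      simp at hu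
    have e0 : (1 / 2 + (u - 1 / 2) : ℂ) = u := by ring
    have h1 : cexp (ell u) = u * (u - 1) * Gammaℝ u * riemannZeta u := by
      unfold ell
      rw [Complex.exp_add, hg.2.1 u hu, hz.2.1 u hu]
    have h2 : riemannZeta u = completedRiemannZeta u / Gammaℝ u := riemannZeta_def_of_ne_zero hu0
    have h3 : Gammaℝ u ≠ 0 := Gammaℝ_ne_zero_of_re_pos (by linarith)
    rw [h1, h2, Pool.Agent.H24R2.JP.Zer.XX_eq (u - 1 / 2) (by rw [e0]; exact hu0)
      (by rw [e0]; exact hu1), e0]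
    field_simp
    ring
  have h1 : HasDerivAt (fun u => cexp (ell u)) (cexp (ell s) * deriv ell s) s := hd.hasDerivAt.cexp
  have h2 : HasDerivAt (fun u : ℂ => 1 / 4 * XX (u - 1 / 2)) (1 / 4 * deriv XX (s - 1 / 2)) s := by
    have a1 : HasDerivAt (fun u : ℂ => u - 1 / 2) 1 s := (hasDerivAt_id s).sub_const _
    have a2 := HasDerivAt.comp s (XX_diff (s - 1 / 2)).hasDerivAt a1
    rw [mul_one] at a2
    exact a2.const_mul (1 / 4)
  have h3 : (fun u => cexp (ell u)) =ᶠ[𝓝 s] fun u : ℂ => 1 / 4 * XX (u - 1 / 2) := by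
    filter_upwards [hV.mem_nhds hs] with u hu
    exact he u hu
  have h4 := (h2.congr_of_eventuallyEq h3).unique h1
  have hw : 1 / 2 < (s - 1 / 2).re := by
    have : (s - 1 / 2).re = s.re - 1 / 2 := by
      rw [Complex.sub_re]; norm_num
    rw [this]; linarith
  have h5 : deriv ell s = deriv XX (s - 1 / 2) / XX (s - 1 / 2) := by
    rw [he s hs] at h4
    rw [eq_div_iff (XX_ne hw)]
    linear_combination -4 * h4
  rw [h5]
  exact pos hw

end Pool.Agent.W760.AI.MON
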